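import Pool.Agent.H43.CE.I.Mnr
import Pool.Agent.H43.CE.Z.Comb

/-!
# CE, job I-Rel : relations in `𝒮 = CR (E1 I u w)`

Point of `E1`: `M = lowMat (z ∘ inl) = b * permMat v * b'`, `v = u * w`, `x = (bdg (bk I) b).mulVec x'`, `x'` supported in `I.image u`.
* `x_of_block` : if `bk I j = bk I c`, `c ∈ I`, then `x j = b j (u c) * x' (u c)`: the sum over `s = u c'`, `bk I (u c') = bk I c' = bk I j`, so `c' = c` (`bk_apply`, `bk_inj`).
* `bk_of_mem` : `c ≤ j ≤ u c`, `c ∈ I` ⟹ `bk I j = bk I c` (`bk_eq_of`: for `c' ∈ I`, `c < c'`: `u c < c'` by `Pres`).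
* `x_zero` : `j` not in any `[c, u c]`: if `bk I j = bk I c` for some `c ∈ I` then `c ≤ j` (`le_of_bk_eq`) so `u c < j` and `b j (u c) = 0`; otherwise all terms of `x j` vanish.
* `rel_S` : `k = (w⁻¹ c).val`, `v ⟨k,_⟩ = u c`.  `mnr v (k+1) M * x j = mnr (swap j (u c) * v) (k+1) M * x (u c)` by `mnr_cell` (k+1), `mnr_swap` (`hstar` by `star`), `x_of_block` for `j` and `u c`:
  both sides are `∏_{p<k} b (v p) (v p) * b (u c) (u c) * b j (u c) * x' (u c) * ∏ b' p p`.  Then the difference of the two polynomials vanishes on `E1` (`CMT.aeval_pmnr` with `x = 1`, `aeval_rename`).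
-/

open MvPolynomial

noncomputable section

namespace CE

open CMT

variable {n : ℕ} {I : Finset (Fin n)} {u w : Equiv.Perm (Fin n)}

theorem bk_of_mem (hp : Pres I u) {c j : Fin n} (hc : c ∈ I) (h1 : c ≤ j) (h2 : j ≤ u c) :
    bk I j = bk I c :=
  bk_eq_of h1 fun c' hc' h => h2.trans_lt (hp c' hc' c h)

theorem x_of_block (hp : Pres I u) {b : Matrix (Fin n) (Fin n) ℂ} {x' : Fin n → ℂ}
    (hx : ∀ j, j ∉ I.image u → x' j = 0) {c j : Fin n} (hc : c ∈ I) (hj : bk I j = bk I c) :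
    ((bdg (bk I) b).mulVec x') j = b j (u c) * x' (u c) := by
  show ∑ s, (if bk I j = bk I s then b j s else 0) * x' s = b j (u c) * x' (u c)
  rw [Finset.sum_eq_single (u c)]
  · rw [if_pos (hj.trans (bk_apply hp hc).symm)]
  · intro s _ hs
    by_cases h1 : s ∈ I.image u
    · obtain ⟨c', hc', rfl⟩ := Finset.mem_image.1 h1
      have h2 : ¬ bk I j = bk I (u c') := by
        intro h3
        rw [bk_apply hp hc'] at h3
        exact hs (congrArg u (bk_inj hc' hc (h3.symm.trans hj)))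
      rw [if_neg h2, zero_mul]
    · rw [hx s h1, mul_zero]
  · intro h
    exact absurd (Finset.mem_univ _) h

theorem x_zero (hp : Pres I u) {j : Fin n} (hj : ¬ ∃ c ∈ I, c ≤ j ∧ j ≤ u c) :
    xx j ∈ VI (E1 I u w) := by
  rw [mem_vanishingIdeal_iff]
  rintro z ⟨b, b', x', hb, -, hx, -, -, h2⟩
  rw [xx, aeval_X]
  have h3 : z (Sum.inr j) = ((bdg (bk I) b).mulVec x') j := congrFun h2 j
  rw [h3]
  by_cases h : ∃ c ∈ I, bk I j = bk I c
  · obtain ⟨c, hc, hjc⟩ := h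
    rw [x_of_block hp hx hc hjc]
    have h4 : c ≤ j := le_of_bk_eq hc hjc
    have h5 : u c < j := by
      by_contra h6
      exact hj ⟨c, hc, h4, not_lt.1 h6⟩
    rw [hb.1 j (u c) h5, zero_mul]
  · show ∑ s, (if bk I j = bk I s then b j s else 0) * x' s = 0
    refine Finset.sum_eq_zero fun s _ => ?_
    by_cases h1 : s ∈ I.image u
    · obtain ⟨c', hc', rfl⟩ := Finset.mem_image.1 h1
      have h4 : ¬ bk I j = bk I (u c') := by
        intro h3
        rw [bk_apply hp hc'] at h3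
        exact h ⟨c', hc', h3⟩
      rw [if_neg h4, zero_mul]
    · rw [hx s h1, mul_zero]

theorem Rel_aeval_inX (z : (Low n ⊕ Fin n) → ℂ) (f : MvPolynomial (Low n) ℂ) :
    aeval z (inX f) = aeval (fun e => z (Sum.inl e)) f := by
  rw [inX, aeval_rename]
  rfl

theorem rel_S (had : AD u w) (hp : Pres I u) {c j : Fin n} (hc : c ∈ I) (h1 : c ≤ j)
    (h2 : j ≤ u c) :
    (Ideal.Quotient.mk (VI (E1 I u w)) (inX (pmnr 1 (u * w) ((w⁻¹ c).val + 1) (w⁻¹ c).isLt))) *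
        Ideal.Quotient.mk _ (xx j) =
      Ideal.Quotient.mk (VI (E1 I u w)) (inX (pcj u w c j)) * Ideal.Quotient.mk _ (xx (u c)) := by
  rw [← map_mul, ← map_mul, Ideal.Quotient.eq, mem_vanishingIdeal_iff]
  rintro z ⟨b, b', x', hb, hb', hx, -, hM, h3⟩
  have hv : (u * w) ⟨(w⁻¹ c).val, (w⁻¹ c).isLt⟩ = u c := by
    show u (w (w⁻¹ c)) = u c
    rw [comb_ai]
  have hM' : permMat ℂ (1 : Equiv.Perm (Fin n)) * lowMat (fun e => z (Sum.inl e)) =
      b * permMat ℂ (u * w) * b' := hM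
  have hx1 : z (Sum.inr j) = b j (u c) * x' (u c) :=
    (congrFun h3 j).trans (x_of_block hp hx hc (bk_of_mem hp hc h1 h2))
  have hx2 : z (Sum.inr (u c)) = b (u c) (u c) * x' (u c) :=
    (congrFun h3 (u c)).trans (x_of_block hp hx hc (bk_apply hp hc))
  have e1 := mnr_cell (u * w) hb hb' ((w⁻¹ c).val + 1) (w⁻¹ c).isLt
  have e2 := mnr_swap (u * w) hb hb' (w⁻¹ c).val (w⁻¹ c).isLt (c := c) (j := j) h1
    (by rw [hv]; exact h2) (by
      intro i hi1 hi2
      rw [hv] at hi2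
      exact star had hp hc hi1 hi2)
  rw [hv] at e2
  rw [Fin.prod_univ_castSucc] at e1
  have e3 : b ((u * w) (Fin.castLE (w⁻¹ c).isLt (Fin.last (w⁻¹ c).val)))
      ((u * w) (Fin.castLE (w⁻¹ c).isLt (Fin.last (w⁻¹ c).val))) = b (u c) (u c) := by
    have h4 : (u * w) (Fin.castLE (w⁻¹ c).isLt (Fin.last (w⁻¹ c).val)) = u c := hv
    rw [h4]
  rw [e3] at e1
  rw [map_sub, map_mul, map_mul, Rel_aeval_inX, Rel_aeval_inX, xx, xx, aeval_X, aeval_X, pcj,
    aeval_pmnr, aeval_pmnr, hM', hx1, hx2]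
  rw [sub_eq_zero]
  have e4 : mnr (u * w) ((w⁻¹ c).val + 1) (w⁻¹ c).isLt (b * permMat ℂ (u * w) * b') =
      (∏ p : Fin (w⁻¹ c).val, b ((u * w) (Fin.castLE (w⁻¹ c).isLt.le p))
        ((u * w) (Fin.castLE (w⁻¹ c).isLt.le p))) * b (u c) (u c) *
        ∏ p : Fin ((w⁻¹ c).val + 1), b' (Fin.castLE (w⁻¹ c).isLt p)
          (Fin.castLE (w⁻¹ c).isLt p) := e1
  rw [e4]
  refine Eq.trans ?_ (congrArg (fun t => t * (b (u c) (u c) * x' (u c))) e2.symm)
  ring

end CE
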