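import Pool.Agent.H43.CE.S.DL
import Pool.Agent.H43.CE.S.S4
import Pool.Agent.H43.CE.S.S5
import Pool.Agent.H43.CE.I.Rel

/-!
# CE, job I-BdSub : elements of the boundary ideal in `𝒮`

Apply `DL` to `𝒮 = CR (E1 I u w)` (normal domain: `E1_normal`), `κ = Fin n`, `Δ k = dS I u w k` (`dS_ne_zero`), `ι = {p // Fac1 u w p}`, `Q p = QQ I u w p` (`QQ_isPrime`, `QQ_height`, `exists_fac_of_mem`, `dS_order_one`),
`α k = (ex H k).toNat`, `β k = (-ex H k).toNat`, `g = psi f * Xn`, `mm p = 1 + ∑ c ∈ I, if mk (xx (u c)) ∈ QQ I u w p then ν c else 0` (classical).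
* `g ∈ (Q p)^(mm p)`: `psi f ∈ Q p`: `f ∈ bd 1 v ≤ Pid 1 v (p.1*p.2)` (`fac1_cov`), `f = mk F`, `F ∈ VI (SS 1 (p.1*p.2))` (`CMT.mk_mem_Pid`), `inX F ∈ VI (E1 I p.1 p.2)` (`inX_mem_iff`), `mk_mem_QQ`.
* `he`: `fac1_hasse`: `p.1*p.2 = v * swap a b`, `Hasse v a b`.  `Δ k ∈ Q p ↔ a < k ≤ b` (`dS_mem_QQ`, `CMT.rk_swap_of_mem`, `CMT.rk_swap_of_not_mem`).
  `∑_{a<k≤b} (α k - β k) = H b - H a = 1 + ∑_c [v a = u c ∧ c ≤ v b] ν c` (`CMT.sum_ex`, `hs.hH`) `≤ mm p` by `xx_mem_QQ`.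
* `xx_mem_QQ` : if `v a = u c`, `c ≤ v b` (`a, b` as in `fac1_hasse`) then `xx (u c) ∈ VI (E1 I p.1 p.2)`.
  Case 1 (`p.2 = w`, `p.1 = u * swap (w a) (w b)`, `Hasse u (w a) (w b)`): `u (w a) = u c`, so `w a = c`, `p.1 c = u (w b) < u c`.  On `E1 I p.1 p.2`: `bk I (u c) = bk I c` (`bk_apply`), so
  `x (u c) = b (u c) (p.1 c) * x' (p.1 c)` (`x_of_block` for `p.1`, `Pres I p.1` by `pres_of_ble`) `= 0` as `p.1 c < u c` and `b` is upper.
  Case 2 (`p.1 = u`, `w b < w a`): `w a = c`, `w b < c`, so `u (w b) < c` by `Pres`, contradiction to `c ≤ v b`.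
-/

open MvPolynomial

noncomputable section

namespace CE

open CMT

variable {n : ℕ} {I : Finset (Fin n)} {u w : Equiv.Perm (Fin n)} {ν : Fin n → ℕ} {H : Fin n → ℤ}

theorem xx_mem_QQ (hne : NE u w) (hp : Pres I u)
    {p : Equiv.Perm (Fin n) × Equiv.Perm (Fin n)} (hf : Fac1 u w p) {a b c : Fin n}
    (hH : Hasse (u * w) a b) (hpp : p.1 * p.2 = u * w * Equiv.swap a b) (hc : c ∈ I)
    (h1 : (u * w) a = u c) (h2 : c ≤ (u * w) b) :
    xx (u c) ∈ VI (E1 I p.1 p.2) := by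
  obtain ⟨a', b', hH', hpp', h3⟩ := fac1_hasse hne hf
  rw [hpp] at hpp'
  obtain ⟨rfl, rfl⟩ := scov_swap (mul_left_cancel hpp') hH.1 hH'.1
  have h4 : w a = c := u.injective h1
  rcases h3 with ⟨e1, e2, -, e3⟩ | ⟨e1, e2, -, e3⟩
  · have h5 : p.1 c = u (w b) := by
      rw [e3, ← h4, Equiv.Perm.mul_apply, Equiv.swap_apply_left]
    have h6 : p.1 c < u c := by
      rw [h5, ← h1]
      exact hH.2.1
    rw [mem_vanishingIdeal_iff]
    rintro z ⟨β, β', x', hβ, hβ', hx, -, -, hx2⟩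
    have h7 : (fun j => z (Sum.inr j)) = (bdg (bk I) β).mulVec x' := hx2
    have h8 := x_of_block (pres_of_ble (Fac1_le hf).1 hp) (b := β) hx hc (bk_apply hp hc)
    rw [← h7, hβ.1 _ _ h6, zero_mul] at h8
    rw [xx, aeval_X]
    exact h8
  · exfalso
    rw [h4] at e2
    have h5 := hp c hc _ e2
    exact absurd h2 (not_le.2 h5)

theorem BdSub_prod {R : Type*} [CommRing R] {κ : Type*} (s : Finset κ) (x : κ → R) (ν : κ → ℕ)
    (P : Ideal R) : ∏ c ∈ s, x c ^ ν c ∈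
      P ^ (∑ c ∈ s, @ite ℕ (x c ∈ P) (Classical.propDecidable _) (ν c) 0) := by
  classical
  induction s using Finset.induction_on with
  | empty => simp
  | insert c s hc ih =>
    rw [Finset.prod_insert hc, Finset.sum_insert hc, pow_add]
    refine Ideal.mul_mem_mul ?_ ih
    by_cases h : x c ∈ P
    · rw [if_pos h]
      exact Ideal.pow_mem_pow h _
    · rw [if_neg h, pow_zero, Ideal.one_eq_top]
      exact Submodule.mem_top

theorem BdSub_psi (hs : Setup u w I ν H) {f : CR (SS 1 (u * w))} (hf : f ∈ bd 1 (u * w))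
    {p : Equiv.Perm (Fin n) × Equiv.Perm (Fin n)} (hp : Fac1 u w p) :
    psi I u w f ∈ QQ I u w p := by
  have h1 : f ∈ Pid 1 (u * w) (p.1 * p.2) :=
    (Submodule.mem_iInf _).1 hf ⟨p.1 * p.2, fac1_cov hs.ne hp⟩
  obtain ⟨F, rfl⟩ := Ideal.Quotient.mk_surjective f
  rw [mk_mem_Pid (fac1_cov hs.ne hp).1] at h1
  rw [psi_mk, mk_mem_QQ hs.ne hs.pres hp]
  exact (inX_mem_iff F).2 h1

theorem BdSub_ineq (hs : Setup u w I ν H)
    {p : Equiv.Perm (Fin n) × Equiv.Perm (Fin n)} (hp : Fac1 u w p) :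
    ∑ k, (@ite ℕ (dS I u w k ∈ QQ I u w p) (Classical.propDecidable _) (ex H k).toNat 0) ≤
      (1 + ∑ c ∈ I, @ite ℕ (Ideal.Quotient.mk (VI (E1 I u w)) (xx (u c)) ∈ QQ I u w p)
        (Classical.propDecidable _) (ν c) 0) +
      ∑ k, (@ite ℕ (dS I u w k ∈ QQ I u w p) (Classical.propDecidable _) (-ex H k).toNat 0) := by
  classical
  obtain ⟨a, b, hH, hpp, -⟩ := fac1_hasse hs.ne hp
  have hiff : ∀ k : Fin n, dS I u w k ∈ QQ I u w p ↔ (a.val < k.val ∧ k.val ≤ b.val) := by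
    intro k
    rw [dS_mem_QQ hs.ne hs.pres hp k, hpp]
    constructor
    · intro h
      by_contra h2
      exact h fun i => rk_swap_of_not_mem hH.1 k.val h2 i
    · intro h h2
      have h3 := rk_swap_of_mem hH.1 hH.2.1 k.val h.1 h.2
      rw [h2] at h3
      exact lt_irrefl _ h3
  have e1 : ((∑ k, (@ite ℕ (dS I u w k ∈ QQ I u w p) (Classical.propDecidable _)
      (ex H k).toNat 0) : ℕ) : ℤ) -
      ((∑ k, (@ite ℕ (dS I u w k ∈ QQ I u w p) (Classical.propDecidable _)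
      (-ex H k).toNat 0) : ℕ) : ℤ) = H b - H a := by
    rw [← sum_ex H hH.1.le, Finset.sum_filter, Nat.cast_sum, Nat.cast_sum,
      ← Finset.sum_sub_distrib]
    refine Finset.sum_congr rfl fun k _ => ?_
    by_cases hk : dS I u w k ∈ QQ I u w p
    · rw [if_pos hk, if_pos hk, if_pos ((hiff k).1 hk)]
      omega
    · rw [if_neg hk, if_neg hk, if_neg (fun h => hk ((hiff k).2 h))]
      simp
  have e2 := hs.hH a b hH
  have e3 : (∑ c ∈ I, if (u * w) a = u c ∧ c ≤ (u * w) b then (ν c : ℤ) else 0) ≤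
      ((∑ c ∈ I, @ite ℕ (Ideal.Quotient.mk (VI (E1 I u w)) (xx (u c)) ∈ QQ I u w p)
        (Classical.propDecidable _) (ν c) 0 : ℕ) : ℤ) := by
    rw [Nat.cast_sum]
    refine Finset.sum_le_sum fun c hc => ?_
    by_cases h : (u * w) a = u c ∧ c ≤ (u * w) b
    · have h2 : Ideal.Quotient.mk (VI (E1 I u w)) (xx (u c)) ∈ QQ I u w p :=
        (mk_mem_QQ hs.ne hs.pres hp _).2 (xx_mem_QQ hs.ne hs.pres hp hH hpp hc h.1 h.2)
      rw [if_pos h, if_pos h2]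
    · rw [if_neg h]
      exact Int.natCast_nonneg _
  omega

theorem bd_sub (hs : Setup u w I ν H) {f : CR (SS 1 (u * w))} (hf : f ∈ bd 1 (u * w)) :
    ∃ r, IsF I u w ν H f r := by
  have hdom : IsDomain (CR (E1 I u w)) := (E1_normal hs.ne.1 hs.pres).1
  have hic : IsIntegrallyClosed (CR (E1 I u w)) := (E1_normal hs.ne.1 hs.pres).2
  obtain ⟨r, hr, -⟩ := DL (R := CR (E1 I u w)) (κ := Fin n) (fun k => dS I u w k)
    (dS_ne_zero I u w)
    (ι := {p : Equiv.Perm (Fin n) × Equiv.Perm (Fin n) // Fac1 u w p})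
    (fun p => QQ I u w p.1) (fun p => QQ_isPrime hs.ne hs.pres p.2)
    (fun p => QQ_height hs.ne hs.pres p.2)
    (fun P hP hh k hk => by
      obtain ⟨p, hp, he⟩ := exists_fac_of_mem hs.ne hs.pres P hP hh k hk
      exact ⟨⟨p, hp⟩, he⟩)
    (fun p k hk h hh => dS_order_one hs.ne hs.pres p.2 k hk h hh)
    (fun k => (ex H k).toNat) (fun k => (-ex H k).toNat)
    (fun p => 1 + ∑ c ∈ I, @ite ℕ (Ideal.Quotient.mk (VI (E1 I u w)) (xx (u c)) ∈
      QQ I u w p.1) (Classical.propDecidable _) (ν c) 0)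
    (psi I u w f * Xn I u w ν)
    (fun p => by
      rw [pow_add, pow_one]
      exact Ideal.mul_mem_mul (BdSub_psi hs hf p.2) (BdSub_prod _ _ _ _))
    (fun p => BdSub_ineq hs p.2)
  refine ⟨r, ?_⟩
  unfold IsF dmS dpS
  rw [hr]
  ring

end CE
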