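import Pool.Agent.H43.CE.I.Rel

/-!
# CE, job I-DegB : the degree `ν` part of `𝒮`, point (3) below

Torus: for `t : Fin n → ℂ` and `p : Low n ⊕ Fin n → ℂ` let `t • p` have the same `inl` coordinates and `(t • p) (inr j) = (∏ c ∈ I.filter (fun c => bk I c = bk I j), t c) * p (inr j)`.
(1) `p ∈ E1 → t • p ∈ E1`: same `b, b'`, `x'' j = (∏ c ∈ I.filter (bk I c = bk I j), t c) * x' j` (the factor depends only on `bk I j`, so it commutes with `bdg`).
(2) `IsF f r`, `f = mk F`, `r = mk G`.  At `p ∈ E1` (`z = p ∘ inl ∈ SS 1 v`): `F(z) * ∏_c p(inr (u c))^(ν c) * δm(z) = δp(z) * G(p)`, where `δp(z) = ∏ (pmnr 1 v k)(z)^(..)`, all `(pmnr 1 v k)(z) ≠ 0` (`CMT.mnr_ne_zero`,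
  `CMT.aeval_pmnr`).  At `t • p`: `p(inr (u c))` is replaced by `t c * p(inr (u c))` (`bk I (u c) = bk I c`, and the filter is `{c}` by `bk_inj`).  So `G(t • p) = (∏_{c∈I} t c ^ ν c) * G(p)` for all `p ∈ E1`, `t`.
(3) Fix `p ∈ E1`.  `G = ∑_{d} coeff_d(G) X^d` (`MvPolynomial.as_sum`), `d : (Low n ⊕ Fin n) →₀ ℕ`; `G(t • p) = ∑_d coeff_d(G) z^(d∘inl) p^(d∘inr) ∏_{c∈I} t c ^ (∑_{j, bk I j = bk I c} d (inr j))` where for terms with `p^(d∘inr) ≠ 0`
  all `j` with `d (inr j) ≠ 0` are in some `[c, u c]` (`x_zero`), for which `bk I j = bk I c`, and `{j : d (inr j) ≠ 0, bk I j = bk I c} ⊆ [c, u c]`.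
  Compare the coefficients of `∏ t c ^ ν c` (polynomial identity in `MvPolynomial (Fin n) ℂ`, `MvPolynomial.funext`): `G(p) = ∑_{d : d∘inr ∈ Mon I (fun c => (u c).val) ν} coeff_d(G) z^(d∘inl) p^(d∘inr)`.
  (terms with `d∘inr` not supported in the intervals vanish at `p`; for the others the degree condition is `∑_{j ∈ Icc c (u c)} d (inr j) = ν c`.)
(4) so with `G_m = ∑_{d ∈ G.support, d∘inr = m} coeff_d(G) X^(d∘inl) ∈ MvPolynomial (Low n) ℂ`: `G - ∑_{m ∈ Mon} inX G_m * ∏_j xx j ^ m j ∈ VI E1`, i.e. `r = ∑_m psi (mk G_m) * xm I u w m`.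
-/

open MvPolynomial

noncomputable section

namespace CE

open CMT

variable {n : ℕ} {I : Finset (Fin n)} {u w : Equiv.Perm (Fin n)} {ν : Fin n → ℕ} {H : Fin n → ℤ}

/-- the exponent of `t c` -/
private def DegB_D (I : Finset (Fin n)) (d : (Low n ⊕ Fin n) →₀ ℕ) (c : Fin n) : ℕ :=
  if c ∈ I then ∑ j ∈ Finset.univ.filter (fun j => bk I c = bk I j), d (Sum.inr j) else 0

private theorem DegB_ext (I : Finset (Fin n)) (t : Fin n → ℂ) (f : Fin n → ℕ) :
    ∏ c ∈ I, t c ^ f c = ∏ c, t c ^ (if c ∈ I then f c else 0) := by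
  symm
  rw [← Finset.prod_subset (Finset.subset_univ I)]
  · refine Finset.prod_congr rfl fun c hc => ?_
    rw [if_pos hc]
  · intro c _ hc
    rw [if_neg hc, pow_zero]

private theorem DegB_prod (I : Finset (Fin n)) (t : Fin n → ℂ) (p : (Low n ⊕ Fin n) → ℂ)
    (d : (Low n ⊕ Fin n) →₀ ℕ) :
    ∏ i, (Sum.elim (fun e => p (Sum.inl e)) (fun j =>
      (∏ c ∈ I.filter (fun c => bk I c = bk I j), t c) * p (Sum.inr j)) : (Low n ⊕ Fin n) → ℂ) i ^ d i
      = (∏ c, t c ^ DegB_D I d c) * ∏ i, p i ^ d i := by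
  have h1 : ∏ j, (∏ c ∈ I.filter (fun c => bk I c = bk I j), t c) ^ d (Sum.inr j) =
      ∏ c, t c ^ DegB_D I d c := by
    have e1 : ∀ j, (∏ c ∈ I.filter (fun c => bk I c = bk I j), t c) ^ d (Sum.inr j) =
        ∏ c ∈ I, if bk I c = bk I j then t c ^ d (Sum.inr j) else 1 := by
      intro j
      rw [← Finset.prod_pow, Finset.prod_filter]
    rw [Finset.prod_congr rfl fun j _ => e1 j, Finset.prod_comm]
    have e2 : ∀ c, (∏ j, if bk I c = bk I j then t c ^ d (Sum.inr j) else 1) =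
        t c ^ (∑ j ∈ Finset.univ.filter (fun j => bk I c = bk I j), d (Sum.inr j)) := by
      intro c
      rw [← Finset.prod_filter, Finset.prod_pow_eq_pow_sum]
    rw [Finset.prod_congr rfl fun c _ => e2 c]
    exact DegB_ext I t _
  rw [Fintype.prod_sum_type, Fintype.prod_sum_type]
  simp only [Sum.elim_inl, Sum.elim_inr, mul_pow]
  rw [Finset.prod_mul_distrib, h1]
  ring

private theorem DegB_mon (p : (Low n ⊕ Fin n) → ℂ) (d : (Low n ⊕ Fin n) →₀ ℕ) (a : ℂ) :
    aeval p (monomial d a) = a * ∏ i, p i ^ d i := by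
  rw [aeval_monomial, Finsupp.prod_fintype _ _ (fun i => pow_zero _)]
  rfl

private theorem DegB_sum (p : (Low n ⊕ Fin n) → ℂ) (G : MvPolynomial (Low n ⊕ Fin n) ℂ) :
    aeval p G = ∑ d ∈ G.support, coeff d G * ∏ i, p i ^ d i := by
  have e : aeval p G = aeval p (∑ d ∈ G.support, monomial d (coeff d G)) := by
    rw [← MvPolynomial.as_sum G]
  rw [e, map_sum]
  exact Finset.sum_congr rfl fun d _ => DegB_mon p d _

private theorem DegB_coeff {ι : Type*} (s : Finset ι) (A : ι → ℂ) (D : ι → Fin n → ℕ) (g : ℂ)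
    (ν' : Fin n → ℕ) (h : ∀ t : Fin n → ℂ, ∑ d ∈ s, A d * ∏ c, t c ^ D d c = g * ∏ c, t c ^ ν' c) :
    g = ∑ d ∈ s, if D d = ν' then A d else 0 := by
  classical
  have hm : ∀ (t : Fin n → ℂ) (f : Fin n → ℕ) (a : ℂ),
      eval t (monomial (Finsupp.equivFunOnFinite.symm f) a : MvPolynomial (Fin n) ℂ) =
        a * ∏ c, t c ^ f c := by
    intro t f a
    rw [eval_monomial, Finsupp.prod_fintype _ _ (fun i => pow_zero _)]
    rfl
  have hP : (∑ d ∈ s, monomial (Finsupp.equivFunOnFinite.symm (D d)) (A d) :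
      MvPolynomial (Fin n) ℂ) = monomial (Finsupp.equivFunOnFinite.symm ν') g := by
    apply MvPolynomial.funext
    intro t
    rw [map_sum, hm, ← h t]
    exact Finset.sum_congr rfl fun d _ => hm t _ _
  have hc := congrArg (coeff (Finsupp.equivFunOnFinite.symm ν')) hP
  rw [coeff_monomial, if_pos rfl, coeff_sum] at hc
  rw [← hc]
  refine Finset.sum_congr rfl fun d _ => ?_
  rw [coeff_monomial]
  by_cases hd : D d = ν'
  · rw [if_pos hd, if_pos (by rw [hd])]
  · rw [if_neg hd, if_neg]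
    intro h'
    exact hd (Finsupp.equivFunOnFinite.symm.injective h')

private theorem DegB_int (hp : Pres I u) {m : Fin n → ℕ}
    (hs : ∀ j, m j ≠ 0 → ∃ c ∈ I, c ≤ j ∧ j ≤ u c) {c : Fin n} (hc : c ∈ I) :
    ∑ j ∈ Finset.univ.filter (fun j => bk I c = bk I j), m j =
      ∑ j ∈ Finset.univ.filter (fun j : Fin n => c ≤ j ∧ j.val ≤ (u c).val), m j := by
  symm
  apply Finset.sum_subset
  · intro j hj
    rw [Finset.mem_filter] at hj ⊢
    exact ⟨Finset.mem_univ _, (bk_of_mem hp hc hj.2.1 (Fin.le_def.2 hj.2.2)).symm⟩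
  · intro j hj hj'
    rw [Finset.mem_filter] at hj hj'
    by_contra hne
    obtain ⟨c', hc', h1, h2⟩ := hs j hne
    have h3 : bk I j = bk I c' := bk_of_mem hp hc' h1 h2
    have h4 : c = c' := bk_inj hc hc' (hj.2.trans h3)
    subst h4
    exact hj' ⟨Finset.mem_univ _, h1, Fin.le_def.1 h2⟩

private theorem DegB_mem (m : Fin n → ℕ) : m ∈ Mon I (fun c => (u c).val) ν ↔
    m ∈ (Fintype.piFinset fun _ : Fin n => Finset.range (∑ c ∈ I, ν c + 1)) ∧
      ((∀ j, m j ≠ 0 → ∃ c ∈ I, c ≤ j ∧ j.val ≤ (u c).val) ∧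
        ∀ c ∈ I, ∑ j ∈ Finset.univ.filter (fun j : Fin n => c ≤ j ∧ j.val ≤ (u c).val), m j = ν c) :=
  @Finset.mem_filter _ _ (Classical.decPred _) _ _

/-- (3) -/
theorem deg_point (hp : Pres I u) {G : MvPolynomial (Low n ⊕ Fin n) ℂ}
    {p : (Low n ⊕ Fin n) → ℂ} (hpE : ∀ j, (¬ ∃ c ∈ I, c ≤ j ∧ j ≤ u c) → p (Sum.inr j) = 0)
    (h : ∀ t : Fin n → ℂ, aeval (Sum.elim (fun e => p (Sum.inl e)) (fun j =>
      (∏ c ∈ I.filter (fun c => bk I c = bk I j), t c) * p (Sum.inr j)) : (Low n ⊕ Fin n) → ℂ) G =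
      (∏ c ∈ I, t c ^ ν c) * aeval p G) :
    aeval p G = ∑ d ∈ G.support, @ite ℂ ((fun j => d (Sum.inr j)) ∈ Mon I (fun c => (u c).val) ν)
      (Classical.propDecidable _) (aeval p (monomial d (coeff d G))) 0 := by
  classical
  have h1 := DegB_coeff G.support (fun d => coeff d G * ∏ i, p i ^ d i) (DegB_D I)
    (aeval p G) (fun c => if c ∈ I then ν c else 0) (by
      intro t
      have h2 := h t
      rw [DegB_sum, DegB_ext] at h2
      rw [mul_comm, ← h2]
      refine Finset.sum_congr rfl fun d _ => ?_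
      rw [DegB_prod]
      ring)
  rw [h1]
  refine Finset.sum_congr rfl fun d _ => ?_
  rw [DegB_mon]
  by_cases hA : coeff d G * ∏ i, p i ^ d i = 0
  · rw [hA]
    simp
  · have hs : ∀ j, d (Sum.inr j) ≠ 0 → ∃ c ∈ I, c ≤ j ∧ j ≤ u c := by
      intro j hj
      by_contra hno
      apply hA
      rw [Finset.prod_eq_zero (Finset.mem_univ (Sum.inr j)), mul_zero]
      rw [hpE j hno, zero_pow hj]
    have hiff : DegB_D I d = (fun c => if c ∈ I then ν c else 0) ↔
        (fun j => d (Sum.inr j)) ∈ Mon I (fun c => (u c).val) ν := by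
      rw [DegB_mem, Fintype.mem_piFinset]
      constructor
      · intro hD
        have hν : ∀ c ∈ I, ∑ j ∈ Finset.univ.filter
            (fun j : Fin n => c ≤ j ∧ j.val ≤ (u c).val), d (Sum.inr j) = ν c := by
          intro c hc
          have h3 := congrFun hD c
          unfold DegB_D at h3
          rw [if_pos hc, if_pos hc] at h3
          rw [← h3]
          exact (DegB_int hp (m := fun j => d (Sum.inr j)) hs hc).symm
        refine ⟨?_, ?_, hν⟩
        · intro j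
          rw [Finset.mem_range]
          by_cases hj : d (Sum.inr j) = 0
          · rw [hj]
            omega
          · obtain ⟨c, hc, h3, h4⟩ := hs j hj
            have h5 : d (Sum.inr j) ≤ ∑ j ∈ Finset.univ.filter
                (fun j : Fin n => c ≤ j ∧ j.val ≤ (u c).val), d (Sum.inr j) :=
              Finset.single_le_sum (f := fun j : Fin n => d (Sum.inr j))
                (fun _ _ => Nat.zero_le _)
                (Finset.mem_filter.2 ⟨Finset.mem_univ _, h3, Fin.le_def.1 h4⟩)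
            have h6 : ν c ≤ ∑ c ∈ I, ν c :=
              Finset.single_le_sum (f := ν) (fun _ _ => Nat.zero_le _) hc
            rw [hν c hc] at h5
            omega
        · intro j hj
          obtain ⟨c, hc, h3, h4⟩ := hs j hj
          exact ⟨c, hc, h3, Fin.le_def.1 h4⟩
      · rintro ⟨-, -, hν⟩
        funext c
        unfold DegB_D
        by_cases hc : c ∈ I
        · rw [if_pos hc, if_pos hc, ← hν c hc]
          exact DegB_int hp (m := fun j => d (Sum.inr j)) hs hc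
        · rw [if_neg hc, if_neg hc]
    by_cases hD : DegB_D I d = (fun c => if c ∈ I then ν c else 0)
    · rw [if_pos hD, if_pos (hiff.1 hD)]
    · rw [if_neg hD, if_neg (fun h' => hD (hiff.2 h'))]

end CE
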