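import Pool.Agent.H43.CE.I.DegA
import Pool.Agent.H43.CE.I.DegB

/-!
# CE, job I-Deg : the degree `ν` part of `𝒮`, point (4) below; (1), (2) are in DegA.lean, (3) in DegB.lean

Torus: for `t : Fin n → ℂ` and `p : Low n ⊕ Fin n → ℂ` let `t • p` have the same `inl` coordinates and `(t • p) (inr j) = (∏ c ∈ I.filter (fun c => bk I c = bk I j), t c) * p (inr j)`.
(1) `p ∈ E1 → t • p ∈ E1`: same `b, b'`, `x'' j = (∏ c ∈ I.filter (bk I c = bk I j), t c) * x' j` (the factor depends only on `bk I j`, so it commutes with `bdg`).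
(2) `IsF f r`, `f = mk F`, `r = mk G`.  At `p ∈ E1` (`z = p ∘ inl ∈ SS 1 v`): `F(z) * ∏_c p(inr (u c))^(ν c) * δm(z) = δp(z) * G(p)`, where `δp(z) = ∏ (pmnr 1 v k)(z)^(..)`, all `(pmnr 1 v k)(z) ≠ 0` (`CMT.mnr_ne_zero`,
  `CMT.aeval_pmnr`).  At `t • p`: `p(inr (u c))` is replaced by `t c * p(inr (u c))` (`bk I (u c) = bk I c`, and the filter is `{c}` by `bk_inj`).  So `G(t • p) = (∏_{c∈I} t c ^ ν c) * G(p)` for all `p ∈ E1`, `t`.
(3) Fix `p ∈ E1`.  `G = ∑_{d} coeff_d(G) X^d` (`MvPolynomial.as_sum`), `d : (Low n ⊕ Fin n) →₀ ℕ`; `G(t • p) = ∑_d coeff_d(G) z^(d∘inl) p^(d∘inr) ∏_{c∈I} t c ^ (∑_{j, bk I j = bk I c} d (inr j))` where for terms with `p^(d∘inr) ≠ 0`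
  all `j` with `d (inr j) ≠ 0` are in some `[c, u c]` (`x_zero`), for which `bk I j = bk I c`, and `{j : d (inr j) ≠ 0, bk I j = bk I c} ⊆ [c, u c]`.
  Compare the coefficients of `∏ t c ^ ν c` (polynomial identity in `MvPolynomial (Fin n) ℂ`, `MvPolynomial.funext`): `G(p) = ∑_{d : d∘inr ∈ Mon I (fun c => (u c).val) ν} coeff_d(G) z^(d∘inl) p^(d∘inr)`.
  (terms with `d∘inr` not supported in the intervals vanish at `p`; for the others the degree condition is `∑_{j ∈ Icc c (u c)} d (inr j) = ν c`.)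
(4) so with `G_m = ∑_{d ∈ G.support, d∘inr = m} coeff_d(G) X^(d∘inl) ∈ MvPolynomial (Low n) ℂ`: `G - ∑_{m ∈ Mon} inX G_m * ∏_j xx j ^ m j ∈ VI E1`, i.e. `r = ∑_m psi (mk G_m) * xm I u w m`.
-/

open MvPolynomial

noncomputable section

namespace CE

open CMT

variable {n : ℕ} {I : Finset (Fin n)} {u w : Equiv.Perm (Fin n)} {ν : Fin n → ℕ} {H : Fin n → ℤ}

/-- the `inl` part of an exponent -/
def degL (d : (Low n ⊕ Fin n) →₀ ℕ) : Low n →₀ ℕ :=
  Finsupp.equivFunOnFinite.symm fun e => d (Sum.inl e)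

/-- the coefficient of `x^m` in `G` -/
def degG (G : MvPolynomial (Low n ⊕ Fin n) ℂ) (m : Fin n → ℕ) : MvPolynomial (Low n) ℂ :=
  ∑ d ∈ @Finset.filter _ (fun d : (Low n ⊕ Fin n) →₀ ℕ => (fun j => d (Sum.inr j)) = m)
    (Classical.decPred _) G.support, monomial (degL d) (coeff d G)

theorem deg_eval_monomial (p : (Low n ⊕ Fin n) → ℂ) (d : (Low n ⊕ Fin n) →₀ ℕ) (c : ℂ) :
    aeval p (monomial d c) = c * (∏ e, p (Sum.inl e) ^ d (Sum.inl e)) *
      ∏ j, p (Sum.inr j) ^ d (Sum.inr j) := by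
  rw [aeval_monomial, Finsupp.prod_fintype _ _ (fun i => pow_zero _), Fintype.prod_sum_type,
    mul_assoc]
  rfl

theorem deg_eval_degL (z : Low n → ℂ) (d : (Low n ⊕ Fin n) →₀ ℕ) (c : ℂ) :
    aeval z (monomial (degL d) c) = c * ∏ e, z e ^ d (Sum.inl e) := by
  rw [aeval_monomial, Finsupp.prod_fintype _ _ (fun i => pow_zero _)]
  rfl

/-- (4) -/
theorem deg_part (had : AD u w) (hp : Pres I u) {f : CR (SS 1 (u * w))} {r : CR (E1 I u w)}
    (h : IsF I u w ν H f r) :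
    ∃ r' : (Fin n → ℕ) → CR (SS 1 (u * w)),
      r = ∑ m ∈ Mon I (fun c => (u c).val) ν, psi I u w (r' m) * xm I u w m := by
  classical
  obtain ⟨F, rfl⟩ := Ideal.Quotient.mk_surjective f
  obtain ⟨G, rfl⟩ := Ideal.Quotient.mk_surjective r
  refine ⟨fun m => Ideal.Quotient.mk _ (degG G m), ?_⟩
  have h1 : ∑ m ∈ Mon I (fun c => (u c).val) ν,
      psi I u w (Ideal.Quotient.mk _ (degG G m)) * xm I u w m =
      Ideal.Quotient.mk (VI (E1 I u w)) (∑ m ∈ Mon I (fun c => (u c).val) ν,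
        inX (degG G m) * ∏ j, xx j ^ m j) := by
    rw [map_sum]
    refine Finset.sum_congr rfl fun m _ => ?_
    rw [psi_mk, map_mul, map_prod]
    rfl
  rw [h1, Ideal.Quotient.eq, mem_vanishingIdeal_iff]
  intro p hpE
  rw [map_sub, sub_eq_zero]
  have h2 : ∀ j, (¬ ∃ c ∈ I, c ≤ j ∧ j ≤ u c) → p (Sum.inr j) = 0 := by
    intro j hj
    have h3 := x_zero (w := w) hp hj
    rw [mem_vanishingIdeal_iff] at h3
    have h4 := h3 p hpE
    rwa [xx, aeval_X] at h4
  rw [deg_point hp h2 (fun t => deg_scale had hp h hpE t)]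
  rw [map_sum]
  have h5 : ∀ m : Fin n → ℕ, aeval p (inX (degG G m) * ∏ j, xx j ^ m j) =
      ∑ d ∈ G.support, if (fun j => d (Sum.inr j)) = m then
        aeval p (monomial d (coeff d G)) else 0 := by
    intro m
    rw [map_mul, inX, aeval_rename, degG, map_sum, map_prod, Finset.sum_mul, ← Finset.sum_filter]
    refine Finset.sum_congr (by congr) fun d hd => ?_
    have hd' := (Finset.mem_filter.1 hd).2
    rw [deg_eval_degL, deg_eval_monomial]
    congr 1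
    refine Finset.prod_congr rfl fun j _ => ?_
    rw [map_pow, xx, aeval_X, ← hd']
  rw [Finset.sum_congr rfl fun m _ => h5 m, Finset.sum_comm]
  refine Finset.sum_congr rfl fun d _ => ?_
  rw [Finset.sum_ite_eq]
  split_ifs <;> rfl

end CE
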