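import Pool.Agent.H43.CE.I.FmuS
import Pool.Agent.H43.CE.I.BdSub
import Pool.Agent.H43.CE.I.Deg

/-!
# CE, job I-Gens : generators of the boundary ideal (assembly)

* `isF_unique` : `𝒮` is a domain (`E1_normal`), `Xn ≠ 0` (`Xn_ne_zero`), `dmS ≠ 0` (`dS_ne_zero`), `psi` is injective: `IsF f r`, `IsF f' r` imply `f = f'`.  `isF_sum`: linearity.
* `Xn_ne_zero` : `xx (u c) ∉ VI (E1 I u w)`: the point with `b = b'`-data of any point of `SS 1 v` (nonempty) and `x' = Pi.single (u c) 1` has `x (u c) = b (u c) (u c) ≠ 0`; `𝒮` is a domain.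
* `exists_gens` : choose `F m` by `exists_fmuS` for `m ∈ Mon`, `0` otherwise.  For `f ∈ bd`: `bd_sub` gives `r`, `deg_part` gives `r'`; then `IsF (∑ r' m * F m) (∑ psi (r' m) * xm m) = IsF _ r`, so `f = ∑ r' m * F m`.
-/

open MvPolynomial

noncomputable section

namespace CE

open CMT

variable {n : ℕ} {I : Finset (Fin n)} {u w : Equiv.Perm (Fin n)} {ν : Fin n → ℕ} {H : Fin n → ℤ}

theorem Gens_xx (c : Fin n) (hc : c ∈ I) : xx (u c) ∉ VI (E1 I u w) := by
  intro h
  rw [mem_vanishingIdeal_iff] at h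
  obtain ⟨z, b, b', hb, hb', hz⟩ := SS_nonempty_of_ble (ble_one (u * w))
  have h1 := h (Sum.elim z ((bdg (bk I) b).mulVec (Pi.single (u c) 1))) (by
    refine ⟨b, b', Pi.single (u c) 1, hb, hb', ?_, fun j hj => absurd hj (Finset.notMem_empty j),
      hz, rfl⟩
    intro j hj
    refine Pi.single_eq_of_ne ?_ _
    rintro rfl
    exact hj (Finset.mem_image_of_mem u hc))
  rw [xx, aeval_X] at h1
  have h2 : (bdg (bk I) b).mulVec (Pi.single (u c) 1) (u c) = 0 := h1
  rw [Matrix.mulVec_single_one] at h2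
  have h3 : b (u c) (u c) = 0 := by
    have h4 : bdg (bk I) b (u c) (u c) = 0 := h2
    unfold bdg at h4
    rw [if_pos rfl] at h4
    exact h4
  exact hb.2 (u c) h3

theorem Xn_ne_zero (had : AD u w) (hp : Pres I u) (ν : Fin n → ℕ) : Xn I u w ν ≠ 0 := by
  have : IsDomain (CR (E1 I u w)) := (E1_normal had hp).1
  unfold Xn
  rw [Finset.prod_ne_zero_iff]
  intro c hc
  refine pow_ne_zero _ ?_
  intro h
  exact Gens_xx c hc (Ideal.Quotient.eq_zero_iff_mem.1 h)

theorem Gens_dm (had : AD u w) (hp : Pres I u) (H : Fin n → ℤ) : dmS I u w H ≠ 0 := by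
  have : IsDomain (CR (E1 I u w)) := (E1_normal had hp).1
  unfold dmS
  rw [Finset.prod_ne_zero_iff]
  intro k _
  exact pow_ne_zero _ (dS_ne_zero I u w k)

theorem Gens_dp (had : AD u w) (hp : Pres I u) (H : Fin n → ℤ) : dpS I u w H ≠ 0 := by
  have : IsDomain (CR (E1 I u w)) := (E1_normal had hp).1
  unfold dpS
  rw [Finset.prod_ne_zero_iff]
  intro k _
  exact pow_ne_zero _ (dS_ne_zero I u w k)

theorem isF_unique (had : AD u w) (hp : Pres I u) {f f' : CR (SS 1 (u * w))}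
    {r : CR (E1 I u w)} (h : IsF I u w ν H f r) (h' : IsF I u w ν H f' r) : f = f' := by
  have : IsDomain (CR (E1 I u w)) := (E1_normal had hp).1
  unfold IsF at h h'
  apply psi_injective I u w
  exact mul_right_cancel₀ (Xn_ne_zero had hp ν)
    (mul_right_cancel₀ (Gens_dm had hp H) (h.trans h'.symm))

theorem isF_inj (had : AD u w) (hp : Pres I u) {f : CR (SS 1 (u * w))}
    {r r' : CR (E1 I u w)} (h : IsF I u w ν H f r) (h' : IsF I u w ν H f r') : r = r' := by
  have : IsDomain (CR (E1 I u w)) := (E1_normal had hp).1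
  unfold IsF at h h'
  exact mul_left_cancel₀ (Gens_dp had hp H) (h.symm.trans h')

theorem isF_sum {κ : Type} (s : Finset κ) (a : κ → CR (SS 1 (u * w)))
    (f : κ → CR (SS 1 (u * w))) (r : κ → CR (E1 I u w)) (h : ∀ i ∈ s, IsF I u w ν H (f i) (r i)) :
    IsF I u w ν H (∑ i ∈ s, a i * f i) (∑ i ∈ s, psi I u w (a i) * r i) := by
  unfold IsF
  rw [map_sum, Finset.sum_mul, Finset.sum_mul, Finset.mul_sum]
  refine Finset.sum_congr rfl fun i hi => ?_
  have h1 := h i hi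
  unfold IsF at h1
  rw [map_mul]
  linear_combination psi I u w (a i) * h1

theorem exists_gens (hs : Setup u w I ν H) :
    ∃ F : (Fin n → ℕ) → CR (SS 1 (u * w)),
      (∀ m ∈ Mon I (fun c => (u c).val) ν, F m ∈ bd 1 (u * w)) ∧
      (∀ m ∈ Mon I (fun c => (u c).val) ν, IsF I u w ν H (F m) (xm I u w m)) ∧
      ∀ f ∈ bd 1 (u * w), ∃ r : (Fin n → ℕ) → CR (SS 1 (u * w)),
        f = ∑ m ∈ Mon I (fun c => (u c).val) ν, r m * F m := by
  have key : ∀ m : Fin n → ℕ, ∃ f : CR (SS 1 (u * w)), m ∈ Mon I (fun c => (u c).val) ν →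
      (f ∈ bd 1 (u * w) ∧ IsF I u w ν H f (xm I u w m)) := by
    intro m
    by_cases hm : m ∈ Mon I (fun c => (u c).val) ν
    · obtain ⟨f, hf, h⟩ := exists_fmuS hs hm
      exact ⟨f, fun _ => ⟨hf, h⟩⟩
    · exact ⟨0, fun h => absurd h hm⟩
  choose F hF using key
  refine ⟨F, fun m hm => (hF m hm).1, fun m hm => (hF m hm).2, ?_⟩
  intro f hf
  obtain ⟨r, hr⟩ := bd_sub hs hf
  obtain ⟨r', hr'⟩ := deg_part hs.ne.1 hs.pres hr
  refine ⟨r', ?_⟩
  have h1 := isF_sum (ν := ν) (H := H) (Mon I (fun c => (u c).val) ν) r' F (xm I u w)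
    (fun m hm => (hF m hm).2)
  rw [← hr'] at h1
  exact isF_unique hs.ne.1 hs.pres hr h1

end CE
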