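import Pool.Agent.H43.CE.I.Rel
import Pool.Agent.H43.CE.S.S1

/-!
# CE, job I-DegA : the degree `ν` part of `𝒮`, points (1), (2) below

Torus: for `t : Fin n → ℂ` and `p : Low n ⊕ Fin n → ℂ` let `t • p` have the same `inl` coordinates and `(t • p) (inr j) = (∏ c ∈ I.filter (fun c => bk I c = bk I j), t c) * p (inr j)`.
(1) `p ∈ E1 → t • p ∈ E1`: same `b, b'`, `x'' j = (∏ c ∈ I.filter (bk I c = bk I j), t c) * x' j` (the factor depends only on `bk I j`, so it commutes with `bdg`).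
(2) `IsF f r`, `f = mk F`, `r = mk G`.  At `p ∈ E1` (`z = p ∘ inl ∈ SS 1 v`): `F(z) * ∏_c p(inr (u c))^(ν c) * δm(z) = δp(z) * G(p)`, where `δp(z) = ∏ (pmnr 1 v k)(z)^(..)`, all `(pmnr 1 v k)(z) ≠ 0` (`CMT.mnr_ne_zero`,
  `CMT.aeval_pmnr`).  At `t • p`: `p(inr (u c))` is replaced by `t c * p(inr (u c))` (`bk I (u c) = bk I c`, and the filter is `{c}` by `bk_inj`).  So `G(t • p) = (∏_{c∈I} t c ^ ν c) * G(p)` for all `p ∈ E1`, `t`.
(3) Fix `p ∈ E1`.  `G = ∑_{d} coeff_d(G) X^d` (`MvPolynomial.as_sum`), `d : (Low n ⊕ Fin n) →₀ ℕ`; `G(t • p) = ∑_d coeff_d(G) z^(d∘inl) p^(d∘inr) ∏_{c∈I} t c ^ (∑_{j, bk I j = bk I c} d (inr j))` where for terms with `p^(d∘inr) ≠ 0`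
  all `j` with `d (inr j) ≠ 0` are in some `[c, u c]` (`x_zero`), for which `bk I j = bk I c`, and `{j : d (inr j) ≠ 0, bk I j = bk I c} ⊆ [c, u c]`.
  Compare the coefficients of `∏ t c ^ ν c` (polynomial identity in `MvPolynomial (Fin n) ℂ`, `MvPolynomial.funext`): `G(p) = ∑_{d : d∘inr ∈ Mon I (fun c => (u c).val) ν} coeff_d(G) z^(d∘inl) p^(d∘inr)`.
  (terms with `d∘inr` not supported in the intervals vanish at `p`; for the others the degree condition is `∑_{j ∈ Icc c (u c)} d (inr j) = ν c`.)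
(4) so with `G_m = ∑_{d ∈ G.support, d∘inr = m} coeff_d(G) X^(d∘inl) ∈ MvPolynomial (Low n) ℂ`: `G - ∑_{m ∈ Mon} inX G_m * ∏_j xx j ^ m j ∈ VI E1`, i.e. `r = ∑_m psi (mk G_m) * xm I u w m`.
-/

open MvPolynomial

noncomputable section

namespace CE

open CMT

variable {n : ℕ} {I : Finset (Fin n)} {u w : Equiv.Perm (Fin n)} {ν : Fin n → ℕ} {H : Fin n → ℤ}

theorem DegA_mem {p : (Low n ⊕ Fin n) → ℂ} (hpE : p ∈ E1 I u w) (t : Fin n → ℂ) :
    (Sum.elim (fun e => p (Sum.inl e)) (fun j =>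
      (∏ c ∈ I.filter (fun c => bk I c = bk I j), t c) * p (Sum.inr j)) : (Low n ⊕ Fin n) → ℂ) ∈
      E1 I u w := by
  obtain ⟨b, b', x', hb, hb', hx, -, h1, h2⟩ := hpE
  refine ⟨b, b', fun j => (∏ c ∈ I.filter (fun c => bk I c = bk I j), t c) * x' j, hb, hb',
    fun j hj => ?_, fun j hj => absurd hj (Finset.notMem_empty j), h1, ?_⟩
  · show (∏ c ∈ I.filter (fun c => bk I c = bk I j), t c) * x' j = 0
    rw [hx j hj, mul_zero]
  · funext j
    have h3 : p (Sum.inr j) = ∑ s, bdg (bk I) b j s * x' s := congrFun h2 j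
    show (∏ c ∈ I.filter (fun c => bk I c = bk I j), t c) * p (Sum.inr j) =
      ∑ s, bdg (bk I) b j s * ((∏ c ∈ I.filter (fun c => bk I c = bk I s), t c) * x' s)
    rw [h3, Finset.mul_sum]
    refine Finset.sum_congr rfl fun s _ => ?_
    unfold bdg
    by_cases hs : bk I j = bk I s
    · rw [if_pos hs, hs]
      ring
    · rw [if_neg hs]
      ring

theorem DegA_key {F : MvPolynomial (Low n) ℂ} {G : MvPolynomial (Low n ⊕ Fin n) ℂ}
    (h : IsF I u w ν H (Ideal.Quotient.mk _ F) (Ideal.Quotient.mk _ G))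
    {q : (Low n ⊕ Fin n) → ℂ} (hq : q ∈ E1 I u w) :
    aeval q (inX F) * (∏ c ∈ I, q (Sum.inr (u c)) ^ ν c) *
      (∏ k : Fin n, aeval q (inX (pmnr 1 (u * w) k.val k.isLt.le)) ^ (-ex H k).toNat) =
      (∏ k : Fin n, aeval q (inX (pmnr 1 (u * w) k.val k.isLt.le)) ^ (ex H k).toNat) *
        aeval q G := by
  have h1 : Ideal.Quotient.mk (VI (E1 I u w)) (inX F * (∏ c ∈ I, xx (u c) ^ ν c) *
      ∏ k : Fin n, inX (pmnr 1 (u * w) k.val k.isLt.le) ^ (-ex H k).toNat) =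
      Ideal.Quotient.mk (VI (E1 I u w)) ((∏ k : Fin n,
        inX (pmnr 1 (u * w) k.val k.isLt.le) ^ (ex H k).toNat) * G) := by
    rw [map_mul, map_mul, map_mul, map_prod, map_prod, map_prod]
    simp only [map_pow]
    exact h
  rw [Ideal.Quotient.eq, mem_vanishingIdeal_iff] at h1
  have h2 := h1 q hq
  rw [map_sub, sub_eq_zero, map_mul, map_mul, map_mul, map_prod, map_prod, map_prod] at h2
  simp only [map_pow, xx, aeval_X] at h2
  exact h2

/-- (1) and (2) -/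
theorem deg_scale (had : AD u w) (hp : Pres I u) {F : MvPolynomial (Low n) ℂ}
    {G : MvPolynomial (Low n ⊕ Fin n) ℂ}
    (h : IsF I u w ν H (Ideal.Quotient.mk _ F) (Ideal.Quotient.mk _ G))
    {p : (Low n ⊕ Fin n) → ℂ} (hpE : p ∈ E1 I u w) (t : Fin n → ℂ) :
    aeval (Sum.elim (fun e => p (Sum.inl e)) (fun j =>
      (∏ c ∈ I.filter (fun c => bk I c = bk I j), t c) * p (Sum.inr j)) : (Low n ⊕ Fin n) → ℂ) G =
      (∏ c ∈ I, t c ^ ν c) * aeval p G := by
  have h1 := DegA_key h hpE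
  have h2 := DegA_key h (DegA_mem hpE t)
  simp only [Rel_aeval_inX] at h1 h2
  have h3 : ∀ c ∈ I, (Sum.elim (fun e => p (Sum.inl e)) (fun j =>
      (∏ c ∈ I.filter (fun c => bk I c = bk I j), t c) * p (Sum.inr j)) :
      (Low n ⊕ Fin n) → ℂ) (Sum.inr (u c)) ^ ν c = t c ^ ν c * p (Sum.inr (u c)) ^ ν c := by
    intro c hc
    have h4 : I.filter (fun c' => bk I c' = bk I (u c)) = {c} := by
      ext c'
      rw [Finset.mem_filter, Finset.mem_singleton, bk_apply hp hc]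
      constructor
      · rintro ⟨h5, h6⟩
        exact bk_inj h5 hc h6
      · rintro rfl
        exact ⟨hc, rfl⟩
    show ((∏ c' ∈ I.filter (fun c' => bk I c' = bk I (u c)), t c') * p (Sum.inr (u c))) ^ ν c =
      t c ^ ν c * p (Sum.inr (u c)) ^ ν c
    rw [h4, Finset.prod_singleton, mul_pow]
  rw [Finset.prod_congr rfl h3, Finset.prod_mul_distrib] at h2
  simp only [Sum.elim_inl] at h2
  have h5 : (∏ k : Fin n, aeval (fun e => p (Sum.inl e))
      (pmnr 1 (u * w) k.val k.isLt.le) ^ (ex H k).toNat) ≠ 0 := by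
    refine Finset.prod_ne_zero_iff.2 fun k _ => pow_ne_zero _ ?_
    rw [aeval_pmnr]
    exact mnr_ne_zero (E1_fst hpE) k.val k.isLt.le fun i => rfl
  apply mul_left_cancel₀ h5
  rw [← h2]
  linear_combination (∏ c ∈ I, t c ^ ν c) * h1

end CE
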