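import Pool.Agent.H43.CE.Z.Comb

/-!
# CE, job I-Pcj : vanishing of `p_{c,j}` on divisors

`v = u * w`, `k = (w⁻¹ c).val`, `s = u c = v (w⁻¹ c)`, `v' = v * swap a b`, `a ≤ w⁻¹ c < b`, `v b < v a`.
`pcj u w c j = pmnr 1 (swap j s * v) (k+1)`.  By `CMT.mnr_eq_zero` (and `CMT.aeval_pmnr`) it vanishes on `SS 1 v'` if `rk v' i (k+1) < rk (swap j s * v) i (k+1)` for some `i`.
* `rk v' i (k+1) + [i ≤ v a] = rk v i (k+1) + [i ≤ v b]` (`CMT.rk_swap_mid`, `a < k+1 ≤ b`).
* `rk (swap j s * v) i (k+1) + [i ≤ s] = rk v i (k+1) + [i ≤ j]`: `(swap j s * v) p = v p` for `p < k` (`v p ≠ s`; `v p ≠ j`: if `j < s` then `w⁻¹ c < v⁻¹ j` by `star`), and `(swap j s * v) (w⁻¹ c) = j`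
  (write both ranks with `CMT.rk_succ` at `k`, and the first `k` terms agree).
* so we need `i` with `v b < i ≤ v a` and not (`j < i ≤ s`).  If there is none then `i = v b + 1` and `i = v a` give `j ≤ v b`, `v a ≤ s`.  If `v a = s` then `c ≤ j ≤ v b`: excluded by `he`.  If `v a < s`: `c ≤ j ≤ v b < v a < s`, `star` for
  `i = v a`: `w⁻¹ c < v⁻¹ (v a) = a`, contradiction to `a ≤ w⁻¹ c`.
-/

open MvPolynomial

noncomputable section

namespace CE

open CMT

variable {n : ℕ} {I : Finset (Fin n)} {u w : Equiv.Perm (Fin n)}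

theorem Pcj_rk (v : Equiv.Perm (Fin n)) (k j s : Fin n) (hvk : v k = s)
    (hj : ∀ p, p < k → v p ≠ j) (i : ℕ) :
    rk (Equiv.swap j s * v) i (k.val + 1) + (if i ≤ s.val then 1 else 0) =
      rk v i (k.val + 1) + (if i ≤ j.val then 1 else 0) := by
  have h1 : (Equiv.swap j s * v) ⟨k.val, k.isLt⟩ = j := by
    rw [Equiv.Perm.mul_apply]
    show Equiv.swap j s (v k) = j
    rw [hvk, Equiv.swap_apply_right]
  have h2 : v ⟨k.val, k.isLt⟩ = s := hvk
  have h3 : rk (Equiv.swap j s * v) i k.val = rk v i k.val := by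
    unfold rk
    congr 1
    ext p
    simp only [Finset.mem_filter, Finset.mem_univ, true_and]
    refine and_congr_right fun hp => ?_
    have hpk : p < k := hp
    have h4 : v p ≠ s := by
      intro h
      rw [← hvk] at h
      exact absurd (v.injective h) (ne_of_lt hpk)
    rw [Equiv.Perm.mul_apply, Equiv.swap_apply_of_ne_of_ne (hj p hpk) h4]
  rw [rk_succ _ i k.val k.isLt, rk_succ _ i k.val k.isLt, h1, h2, h3]
  omega

theorem pcj_mem (had : AD u w) (hp : Pres I u) {a b : Fin n} (hH : Hasse (u * w) a b)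
    {c j : Fin n} (hc : c ∈ I) (h1 : a ≤ w⁻¹ c) (h2 : w⁻¹ c < b)
    (he : ¬ ((u * w) a = u c ∧ c ≤ (u * w) b)) (h3 : c ≤ j) (h4 : j ≤ u c) :
    pcj u w c j ∈ VI (SS 1 (u * w * Equiv.swap a b)) := by
  obtain ⟨hab, hvv, -⟩ := hH
  have hvk : (u * w) (w⁻¹ c) = u c := by
    rw [Equiv.Perm.mul_apply, comb_ai]
  have hj : ∀ p, p < w⁻¹ c → (u * w) p ≠ j := by
    intro p hpk hpj
    rcases lt_or_eq_of_le h4 with h5 | h5
    · have h6 := star had hp hc h3 h5
      rw [← hpj, comb_ii] at h6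
      exact absurd h6 (not_lt.2 hpk.le)
    · rw [h5, ← hvk] at hpj
      exact absurd ((u * w).injective hpj) (ne_of_lt hpk)
  have hex : ∃ i : ℕ, ((u * w) b).val < i ∧ i ≤ ((u * w) a).val ∧
      ¬ (j.val < i ∧ i ≤ (u c).val) := by
    by_contra hcon
    push Not at hcon
    have hlt : ((u * w) b).val < ((u * w) a).val := hvv
    obtain ⟨h5, -⟩ := hcon (((u * w) b).val + 1) (Nat.lt_succ_self _) hlt
    obtain ⟨-, h6⟩ := hcon ((u * w) a).val hlt le_rfl
    have h7 : j ≤ (u * w) b := Nat.lt_succ_iff.1 h5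
    have h8 : (u * w) a ≤ u c := h6
    rcases lt_or_eq_of_le h8 with h9 | h9
    · have h10 : c ≤ (u * w) a := h3.trans (h7.trans hvv.le)
      have h11 := star had hp hc h10 h9
      rw [comb_ii] at h11
      exact absurd h11 (not_lt.2 h1)
    · exact he ⟨h9, h3.trans h7⟩
  obtain ⟨i, hi1, hi2, hi3⟩ := hex
  rw [mem_vanishingIdeal_iff]
  intro z hz
  unfold pcj
  rw [aeval_pmnr]
  refine mnr_eq_zero hz _ _ i ?_
  have e1 := rk_swap_mid (u * w) hab i ((w⁻¹ c).val + 1) (Nat.lt_succ_of_le h1) h2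
  have e2 := Pcj_rk (u * w) (w⁻¹ c) j (u c) hvk hj i
  rw [if_pos hi2, if_neg (not_le.2 hi1)] at e1
  have hjs : j.val ≤ (u c).val := h4
  by_cases h5 : i ≤ j.val
  · rw [if_pos h5, if_pos (h5.trans hjs)] at e2
    omega
  · have h6 : ¬ i ≤ (u c).val := fun h => hi3 ⟨not_le.1 h5, h⟩
    rw [if_neg h5, if_neg h6] at e2
    omega

end CE
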