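import Pool.Agent.H43.CE.S.DL
import Pool.Agent.H43.CE.I.Pcj

/-!
# CE, job I-FmuR : the generators in `R`

`R = CR (SS 1 v)`, `v = u * w` (normal Noetherian domain by `CMT.good_all`, `SS 1 v` nonempty by `CMT.SS_nonempty_of_ble`, `CMT.ble_one`).
* `kc_lt` : `c < u c` (`hs.up`), `star` with `i = c`: `w⁻¹ c < (u*w)⁻¹ c`, so `(w⁻¹ c).val + 1 < n`.
* `exists_fmuR` : apply `DL` with `κ = Fin n`, `Δ k = dR v k` (`CMT.pmnr_ne_zero`), `ι = {v' // cov v' v ∧ (SS 1 v').Nonempty}`, `Q v' = Pid 1 v v'` (`CMT.Pid_isPrime`, `CMT.Pid_height`, `CMT.exists_cov_of_pmnr_mem`,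
  `CMT.pmnr_order_one` with `CMT.pmnr_mem_Pid`: exactly as in `CMT.divX`, H/DivU.lean),
  `α k = (-ex H k).toNat + ∑ c ∈ I, if k.val = (w⁻¹ c).val + 1 then ν c else 0`, `β k = (ex H k).toNat`,
  `g = ∏ c ∈ I, ∏ j ∈ Finset.Icc c (u c), mk (pcj u w c j) ^ m j`, `mm v' = ∑ c ∈ I, if (∀ j, c ≤ j → j ≤ u c → pcj u w c j ∈ VI (SS 1 v')) then ν c else 0` (classical).
  `g ∈ (Q v')^(mm v')`: for each `c` with the property the inner product is in `(Q v')^(∑_{j ∈ Icc c (u c)} m j) = (Q v')^(ν c)` (`CMT.mk_mem_Pid`; `m ∈ Mon ..` gives the sum; the filter in `Mon` is `Icc c (u c)`).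
  `he` and strictness: `v' = v * swap a b`, `Hasse v a b` (`CMT.hasse_of_cov`).  `Δ k ∈ Q v' ↔ a < k ≤ b` (`CMT.pmnr_mem_Pid`, `CMT.rk_swap_of_mem`, `CMT.rk_swap_of_not_mem`).
   `∑_{a<k≤b} (β k - α k) = (H b - H a) - ∑_{c ∈ I, a < (w⁻¹ c).val + 1 ≤ b} ν c` (`CMT.sum_ex`; `(x).toNat - (-x).toNat = x`) `= 1 + ∑_c [v a = u c ∧ c ≤ v b] ν c - ∑_c [a ≤ w⁻¹ c < b] ν c` (`hs.hH`).
   For `c` with `a ≤ w⁻¹ c < b` and not (`v a = u c ∧ c ≤ v b`): `pcj_mem`, so `c` contributes `ν c` to `mm v'`.  So `∑ α k + 1 ≤ mm v' + ∑ β k` over `a<k≤b`: strict.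
  `DL` gives `f` with `(∏ Δ^α) * f = (∏ Δ^β) * g` and `f ∈ Q v'` for all `v'` in `ι`; so `f ∈ bd 1 v` (all `SS 1 v'` are nonempty).
  `∏_k Δ k ^ (∑ c ∈ I, if k.val = (w⁻¹ c).val + 1 then ν c else 0) = ∏ c ∈ I, dc u w c ^ ν c` (`Finset.prod_comm`, `kc_lt`: exactly one `k` for each `c`).
-/

open MvPolynomial

noncomputable section

namespace CE

open CMT

variable {n : ℕ} {I : Finset (Fin n)} {u w : Equiv.Perm (Fin n)} {ν : Fin n → ℕ} {H : Fin n → ℤ}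

theorem kc_lt (hs : Setup u w I ν H) {c : Fin n} (hc : c ∈ I) : (w⁻¹ c).val + 1 < n := by
  have h1 := star hs.ne.1 hs.pres hc le_rfl (hs.up c hc)
  have h2 := ((u * w)⁻¹ c).isLt
  rw [Fin.lt_def] at h1
  omega

theorem FmuR_mon {m : Fin n → ℕ} (hm : m ∈ Mon I (fun c => (u c).val) ν) {c : Fin n}
    (hc : c ∈ I) : ∑ j ∈ Finset.Icc c (u c), m j = ν c := by
  have h1 := ((@Finset.mem_filter _ _ (Classical.decPred _) _ _).1 hm).2.2 c hc
  rw [← h1]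
  refine Finset.sum_congr ?_ (fun _ _ => rfl)
  ext j
  rw [Finset.mem_Icc, Finset.mem_filter]
  constructor
  · rintro ⟨h2, h3⟩
    exact ⟨Finset.mem_univ _, h2, h3⟩
  · rintro ⟨-, h2, h3⟩
    exact ⟨h2, h3⟩

theorem FmuR_prod_mem {R κ : Type} [CommRing R] (Q : Ideal R) (s : Finset κ) (x : κ → R)
    (e : κ → ℕ) (h : ∀ i ∈ s, x i ∈ Q ^ e i) : ∏ i ∈ s, x i ∈ Q ^ ∑ i ∈ s, e i := by
  classical
  induction s using Finset.induction_on with
  | empty => simp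
  | insert a s ha ih =>
    rw [Finset.prod_insert ha, Finset.sum_insert ha, pow_add]
    exact Ideal.mul_mem_mul (h a (Finset.mem_insert_self _ _))
      (ih fun i hi => h i (Finset.mem_insert_of_mem hi))

/-- the product is in the power of the ideal -/
theorem FmuR_g {m : Fin n → ℕ} (hm : m ∈ Mon I (fun c => (u c).val) ν)
    {v' : Equiv.Perm (Fin n)} (hv : ble v' (u * w)) :
    (∏ c ∈ I, ∏ j ∈ Finset.Icc c (u c),
      Ideal.Quotient.mk (VI (SS 1 (u * w))) (pcj u w c j) ^ m j) ∈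
    (Pid 1 (u * w) v') ^ (∑ c ∈ I, (@ite ℕ (∀ j, c ≤ j → j ≤ u c → pcj u w c j ∈ VI (SS 1 v'))
      (Classical.propDecidable _) (ν c) 0)) := by
  refine FmuR_prod_mem _ _ _ _ (fun c hc => ?_)
  by_cases h : ∀ j, c ≤ j → j ≤ u c → pcj u w c j ∈ VI (SS 1 v')
  · rw [if_pos h, ← FmuR_mon hm hc]
    refine FmuR_prod_mem _ _ _ _ (fun j hj => ?_)
    rw [Finset.mem_Icc] at hj
    exact Ideal.pow_mem_pow ((mk_mem_Pid hv _).2 (h j hj.1 hj.2)) _
  · rw [if_neg h, pow_zero, Ideal.one_eq_top]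
    exact Submodule.mem_top

/-- which minors are in the ideal of the divisor -/
theorem FmuR_mem {v : Equiv.Perm (Fin n)} {a b : Fin n} (h : Hasse v a b) (k : Fin n) :
    dR v k ∈ Pid 1 v (v * Equiv.swap a b) ↔ (a.val < k.val ∧ k.val ≤ b.val) := by
  have h1 := cov_of_hasse h
  unfold dR
  rw [pmnr_mem_Pid h1.1 (SS_nonempty_of_ble (ble_one _))]
  constructor
  · intro h2
    by_contra h3
    exact h2 (fun i => rk_swap_of_not_mem h.1 k.val h3 i)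
  · rintro ⟨h2, h3⟩ h4
    exact absurd (h4 (v a).val) (rk_swap_of_mem h.1 h.2.1 k.val h2 h3).ne

theorem FmuR_sum {v : Equiv.Perm (Fin n)} {a b : Fin n} (h : Hasse v a b) (e : Fin n → ℕ) :
    ∑ k : Fin n, (@ite ℕ (dR v k ∈ Pid 1 v (v * Equiv.swap a b))
      (Classical.propDecidable _) (e k) 0) =
    ∑ k ∈ Finset.univ.filter (fun k : Fin n => a.val < k.val ∧ k.val ≤ b.val), e k := by
  rw [Finset.sum_filter]
  refine Finset.sum_congr rfl (fun k _ => ?_)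
  have h1 := FmuR_mem h k
  by_cases h2 : a.val < k.val ∧ k.val ≤ b.val
  · rw [if_pos h2, if_pos (h1.2 h2)]
  · rw [if_neg h2, if_neg (fun h3 => h2 (h1.1 h3))]

theorem FmuR_ab (hs : Setup u w I ν H) {a b : Fin n} :
    ∑ k ∈ Finset.univ.filter (fun k : Fin n => a.val < k.val ∧ k.val ≤ b.val),
      (∑ c ∈ I, if k.val = (w⁻¹ c).val + 1 then ν c else 0) =
    ∑ c ∈ I, if a ≤ w⁻¹ c ∧ w⁻¹ c < b then ν c else 0 := by
  rw [Finset.sum_comm]
  refine Finset.sum_congr rfl (fun c hc => ?_)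
  by_cases h : a ≤ w⁻¹ c ∧ w⁻¹ c < b
  · rw [if_pos h]
    have h1 := kc_lt hs hc
    rw [Finset.sum_eq_single_of_mem (⟨(w⁻¹ c).val + 1, h1⟩ : Fin n)]
    · rw [if_pos rfl]
    · rw [Finset.mem_filter]
      refine ⟨Finset.mem_univ _, ?_, ?_⟩
      · have := Fin.le_def.1 h.1
        show a.val < (w⁻¹ c).val + 1
        omega
      · have := Fin.lt_def.1 h.2
        show (w⁻¹ c).val + 1 ≤ b.val
        omega
    · intro k _ hk
      rw [if_neg]
      intro h2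
      exact hk (Fin.ext h2)
  · rw [if_neg h]
    refine Finset.sum_eq_zero (fun k hk => ?_)
    rw [if_neg]
    intro h2
    obtain ⟨-, h3, h4⟩ := Finset.mem_filter.1 hk
    apply h
    constructor
    · rw [Fin.le_def]; omega
    · rw [Fin.lt_def]; omega

theorem FmuR_toNat (H : Fin n → ℤ) {a b : Fin n} (hab : a ≤ b) :
    ((∑ k ∈ Finset.univ.filter (fun k : Fin n => a.val < k.val ∧ k.val ≤ b.val),
      (ex H k).toNat : ℕ) : ℤ) =
    ((∑ k ∈ Finset.univ.filter (fun k : Fin n => a.val < k.val ∧ k.val ≤ b.val),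
      (-ex H k).toNat : ℕ) : ℤ) + (H b - H a) := by
  rw [← sum_ex H hab, Nat.cast_sum, Nat.cast_sum, ← Finset.sum_add_distrib]
  refine Finset.sum_congr rfl (fun k _ => ?_)
  omega

/-- the strict inequality -/
theorem FmuR_lt (hs : Setup u w I ν H) {a b : Fin n} (h : Hasse (u * w) a b) :
    ∑ k : Fin n, (@ite ℕ (dR (u * w) k ∈ Pid 1 (u * w) (u * w * Equiv.swap a b))
      (Classical.propDecidable _)
      ((-ex H k).toNat + ∑ c ∈ I, if k.val = (w⁻¹ c).val + 1 then ν c else 0) 0) <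
    ∑ c ∈ I, (@ite ℕ (∀ j, c ≤ j → j ≤ u c →
        pcj u w c j ∈ VI (SS 1 (u * w * Equiv.swap a b)))
      (Classical.propDecidable _) (ν c) 0) +
    ∑ k : Fin n, (@ite ℕ (dR (u * w) k ∈ Pid 1 (u * w) (u * w * Equiv.swap a b))
      (Classical.propDecidable _) ((ex H k).toNat) 0) := by
  rw [FmuR_sum h, FmuR_sum h, Finset.sum_add_distrib, FmuR_ab hs]
  have h1 := FmuR_toNat H (le_of_lt h.1)
  have h2 := hs.hH a b h
  have h3 : ∑ c ∈ I, (if a ≤ w⁻¹ c ∧ w⁻¹ c < b then ν c else 0) ≤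
      ∑ c ∈ I, ((if (u * w) a = u c ∧ c ≤ (u * w) b then ν c else 0) +
        (@ite ℕ (∀ j, c ≤ j → j ≤ u c → pcj u w c j ∈ VI (SS 1 (u * w * Equiv.swap a b)))
          (Classical.propDecidable _) (ν c) 0)) := by
    refine Finset.sum_le_sum (fun c hc => ?_)
    by_cases h4 : a ≤ w⁻¹ c ∧ w⁻¹ c < b
    · rw [if_pos h4]
      by_cases h5 : (u * w) a = u c ∧ c ≤ (u * w) b
      · rw [if_pos h5]
        exact Nat.le_add_right _ _
      · have h6 : ∀ j, c ≤ j → j ≤ u c →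
            pcj u w c j ∈ VI (SS 1 (u * w * Equiv.swap a b)) := fun j hj hj' =>
          pcj_mem hs.ne.1 hs.pres h hc h4.1 h4.2 h5 hj hj'
        rw [if_pos h6]
        exact Nat.le_add_left _ _
    · rw [if_neg h4]
      exact Nat.zero_le _
  rw [Finset.sum_add_distrib] at h3
  have h7 : ((∑ c ∈ I, (if (u * w) a = u c ∧ c ≤ (u * w) b then ν c else 0) : ℕ) : ℤ) =
      ∑ c ∈ I, if (u * w) a = u c ∧ c ≤ (u * w) b then (ν c : ℤ) else 0 := by
    rw [Nat.cast_sum]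
    refine Finset.sum_congr rfl (fun c _ => ?_)
    split_ifs
    · rfl
    · rfl
  rw [← h7] at h2
  omega

theorem FmuR_dc (hs : Setup u w I ν H) :
    ∏ k, dR (u * w) k ^ ((-ex H k).toNat + ∑ c ∈ I, if k.val = (w⁻¹ c).val + 1 then ν c else 0) =
    (∏ k, dR (u * w) k ^ (-ex H k).toNat) * (∏ c ∈ I, dc u w c ^ ν c) := by
  simp only [pow_add]
  rw [Finset.prod_mul_distrib]
  congr 1
  simp only [← Finset.prod_pow_eq_pow_sum]
  rw [Finset.prod_comm]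
  refine Finset.prod_congr rfl (fun c hc => ?_)
  have h1 := kc_lt hs hc
  rw [Finset.prod_eq_single_of_mem (⟨(w⁻¹ c).val + 1, h1⟩ : Fin n) (Finset.mem_univ _)]
  · rw [if_pos rfl]
    rfl
  · intro k _ hk
    rw [if_neg (fun h2 => hk (Fin.ext h2)), pow_zero]

theorem exists_fmuR (hs : Setup u w I ν H) {m : Fin n → ℕ}
    (hm : m ∈ Mon I (fun c => (u c).val) ν) :
    ∃ f ∈ bd 1 (u * w), (∏ k, dR (u * w) k ^ (-ex H k).toNat) * (∏ c ∈ I, dc u w c ^ ν c) * f =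
      (∏ k, dR (u * w) k ^ (ex H k).toNat) *
        ∏ c ∈ I, ∏ j ∈ Finset.Icc c (u c), Ideal.Quotient.mk (VI (SS 1 (u * w))) (pcj u w c j) ^ m j := by
  have hne : (SS 1 (u * w)).Nonempty := SS_nonempty_of_ble (ble_one _)
  have hne' : ∀ v' : Equiv.Perm (Fin n), (SS 1 v').Nonempty := fun v' =>
    SS_nonempty_of_ble (ble_one _)
  have hG := good_all 1 (u * w) hne
  have := hG.1
  have := hG.2.1
  have hlt : ∀ i : {v' : Equiv.Perm (Fin n) // cov v' (u * w)},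
      ∑ k : Fin n, (@ite ℕ (dR (u * w) k ∈ Pid 1 (u * w) i.1)
        (Classical.propDecidable _)
        ((-ex H k).toNat + ∑ c ∈ I, if k.val = (w⁻¹ c).val + 1 then ν c else 0) 0) <
      ∑ c ∈ I, (@ite ℕ (∀ j, c ≤ j → j ≤ u c → pcj u w c j ∈ VI (SS 1 i.1))
        (Classical.propDecidable _) (ν c) 0) +
      ∑ k : Fin n, (@ite ℕ (dR (u * w) k ∈ Pid 1 (u * w) i.1)
        (Classical.propDecidable _) ((ex H k).toNat) 0) := by
    rintro ⟨v', hv'⟩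
    obtain ⟨a, b, h1, rfl⟩ := hasse_of_cov hv'
    exact FmuR_lt hs h1
  obtain ⟨f, hf, hf'⟩ := DL (R := CR (SS 1 (u * w)))
    (fun k : Fin n => dR (u * w) k)
    (fun k => pmnr_ne_zero hne k.val k.isLt.le)
    (fun i : {v' : Equiv.Perm (Fin n) // cov v' (u * w)} => Pid 1 (u * w) i.1)
    (fun i => Pid_isPrime i.2.1 (hne' _))
    (fun i => Pid_height i.2 (hne' _))
    (fun P hP hP1 k hk => by
      have := hP
      obtain ⟨w', hc, hn, hw⟩ := exists_cov_of_pmnr_mem hne P hP1 k.val k.isLt.le hk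
      exact ⟨⟨w', hc⟩, hw⟩)
    (fun i k hk g' hg' => pmnr_order_one i.2 (hne' _) k.val k.isLt.le
      ((pmnr_mem_Pid i.2.1 (hne' _) k.val k.isLt.le).1 hk) g' hg')
    (fun k => (-ex H k).toNat + ∑ c ∈ I, if k.val = (w⁻¹ c).val + 1 then ν c else 0)
    (fun k => (ex H k).toNat)
    (fun i => ∑ c ∈ I, (@ite ℕ (∀ j, c ≤ j → j ≤ u c → pcj u w c j ∈ VI (SS 1 i.1))
        (Classical.propDecidable _) (ν c) 0))
    (∏ c ∈ I, ∏ j ∈ Finset.Icc c (u c),
      Ideal.Quotient.mk (VI (SS 1 (u * w))) (pcj u w c j) ^ m j)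
    (fun i => FmuR_g hm i.2.1)
    (fun i => (hlt i).le)
  refine ⟨f, ?_, ?_⟩
  · rw [bd, Ideal.mem_iInf]
    intro i
    exact hf' i (hlt i)
  · rw [← FmuR_dc hs]
    exact hf

end CE
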