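import Pool.Agent.H43.CE.I.FmuR
import Pool.Agent.H43.CE.I.Rel
import Pool.Agent.H43.CE.S.S1

/-!
# CE, job I-FmuS : the generators, seen in `𝒮`

Let `f` be as in `exists_fmuR`; apply `psi I u w` (`psi (dR v k) = dS I u w k`, `psi (dc u w c) = mk (inX (pmnr ..)) =: D_c`, `psi (mk (pcj ..)) = mk (inX (pcj ..)) =: P_{c,j}`):
`dmS * (∏_c D_c ^ ν c) * psi f = dpS * ∏_c ∏_{j ∈ Icc c (u c)} P_{c,j} ^ m j`.  Multiply by `Xn = ∏_c X_c ^ ν c`, `X_c = mk (xx (u c))`, `ν c = ∑_{j ∈ Icc c (u c)} m j` (`m ∈ Mon`):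
`(∏ P_{c,j}^(m j)) * X_c^(ν c) = ∏_j (P_{c,j} * X_c)^(m j) = ∏_j (D_c * mk (xx j))^(m j) = D_c^(ν c) * ∏_{j ∈ Icc c (u c)} mk (xx j)^(m j)` (`rel_S`).
So `dmS * (∏ D_c^(ν c)) * psi f * Xn = dpS * (∏_c D_c^(ν c)) * ∏_c ∏_{j ∈ Icc c (u c)} mk (xx j) ^ m j`.  The last double product is `xm I u w m = ∏_j mk (xx j)^(m j)`: the intervals `[c, u c]` are disjoint (`Pres`: `c < c'` gives `u c < c'`)
and `m j = 0` outside of them (`Mon`).  Cancel `∏ D_c^(ν c) ≠ 0` (`𝒮` is a domain by `E1_normal`; `D_c = dS I u w ⟨_, kc_lt⟩ ≠ 0` by `dS_ne_zero`).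
-/

open MvPolynomial

noncomputable section

namespace CE

open CMT

variable {n : ℕ} {I : Finset (Fin n)} {u w : Equiv.Perm (Fin n)} {ν : Fin n → ℕ} {H : Fin n → ℤ}

theorem fmuS_flt {A : Type*} (p : A → Prop) (h : DecidablePred p) (s : Finset A) (a : A)
    (ha : a ∈ @Finset.filter A p h s) : p a := (Finset.mem_filter.1 ha).2

theorem fmuS_mul {A : Type*} [CommRing A] {ι : Type*} (s : Finset ι) (m : ι → ℕ) {N : ℕ}
    (hN : ∑ j ∈ s, m j = N) (P x : ι → A) (D Y : A) (h : ∀ j ∈ s, D * x j = P j * Y) :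
    (∏ j ∈ s, P j ^ m j) * Y ^ N = D ^ N * ∏ j ∈ s, x j ^ m j := by
  rw [← hN, ← Finset.prod_pow_eq_pow_sum, ← Finset.prod_pow_eq_pow_sum, ← Finset.prod_mul_distrib,
    ← Finset.prod_mul_distrib]
  refine Finset.prod_congr rfl fun j hj => ?_
  rw [← mul_pow, ← mul_pow, h j hj]

theorem fmuS_prod {A : Type*} [CommRing A] (hp : Pres I u) (m : Fin n → ℕ)
    (hm : ∀ j, m j ≠ 0 → ∃ c ∈ I, c ≤ j ∧ j ≤ u c) (x : Fin n → A) :
    ∏ c ∈ I, ∏ j ∈ Finset.Icc c (u c), x j ^ m j = ∏ j, x j ^ m j := by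
  have hlt : ∀ c ∈ I, ∀ c' ∈ I, c < c' →
      Disjoint (Finset.Icc c (u c)) (Finset.Icc c' (u c')) := by
    intro c _ c' hc' hlt
    rw [Finset.disjoint_left]
    intro j h1 h2
    rw [Finset.mem_Icc] at h1 h2
    exact absurd (h1.2.trans_lt (hp c' hc' c hlt)) (not_lt.2 h2.1)
  have hd : (I : Set (Fin n)).PairwiseDisjoint fun c => Finset.Icc c (u c) := by
    intro c hc c' hc' hne
    rcases lt_or_gt_of_ne hne with h | h
    · exact hlt c hc c' hc' h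
    · exact (hlt c' hc' c hc h).symm
  rw [← Finset.prod_biUnion hd]
  refine Finset.prod_subset (Finset.subset_univ _) fun j _ hj => ?_
  by_cases h0 : m j = 0
  · rw [h0, pow_zero]
  · exfalso
    obtain ⟨c, hc, h1, h2⟩ := hm j h0
    exact hj (Finset.mem_biUnion.2 ⟨c, hc, Finset.mem_Icc.2 ⟨h1, h2⟩⟩)

theorem exists_fmuS (hs : Setup u w I ν H) {m : Fin n → ℕ}
    (hm : m ∈ Mon I (fun c => (u c).val) ν) :
    ∃ f ∈ bd 1 (u * w), IsF I u w ν H f (xm I u w m) := by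
  obtain ⟨f, hf, h⟩ := exists_fmuR hs hm
  refine ⟨f, hf, ?_⟩
  have : IsDomain (CR (E1 I u w)) := (E1_normal hs.ne.1 hs.pres).1
  have hm' := fmuS_flt _ _ _ _ hm
  obtain ⟨hm1, hm2⟩ := hm'
  have h1 := congrArg (psi I u w) h
  rw [map_mul, map_mul, map_mul, map_prod, map_prod, map_prod, map_prod] at h1
  have e1 : ∏ k, psi I u w (dR (u * w) k ^ (-ex H k).toNat) = dmS I u w H :=
    Finset.prod_congr rfl fun k _ => by rw [map_pow]; rfl
  have e2 : ∏ k, psi I u w (dR (u * w) k ^ (ex H k).toNat) = dpS I u w H :=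
    Finset.prod_congr rfl fun k _ => by rw [map_pow]; rfl
  have e3 : ∏ c ∈ I, psi I u w (dc u w c ^ ν c) = ∏ c ∈ I, (Ideal.Quotient.mk (VI (E1 I u w))
      (inX (pmnr 1 (u * w) ((w⁻¹ c).val + 1) (w⁻¹ c).isLt))) ^ ν c :=
    Finset.prod_congr rfl fun c _ => by rw [map_pow]; rfl
  have e4 : ∏ c ∈ I, psi I u w (∏ j ∈ Finset.Icc c (u c),
      Ideal.Quotient.mk (VI (SS 1 (u * w))) (pcj u w c j) ^ m j) =
      ∏ c ∈ I, ∏ j ∈ Finset.Icc c (u c),
        Ideal.Quotient.mk (VI (E1 I u w)) (inX (pcj u w c j)) ^ m j := by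
    refine Finset.prod_congr rfl fun c _ => ?_
    rw [map_prod]
    exact Finset.prod_congr rfl fun j _ => by rw [map_pow]; rfl
  rw [e1, e2, e3, e4] at h1
  have h2 : (∏ c ∈ I, ∏ j ∈ Finset.Icc c (u c),
      Ideal.Quotient.mk (VI (E1 I u w)) (inX (pcj u w c j)) ^ m j) * Xn I u w ν =
      (∏ c ∈ I, (Ideal.Quotient.mk (VI (E1 I u w))
        (inX (pmnr 1 (u * w) ((w⁻¹ c).val + 1) (w⁻¹ c).isLt))) ^ ν c) * xm I u w m := by
    unfold Xn xm
    rw [← fmuS_prod hs.pres m (fun j hj => hm1 j hj)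
      (fun j => Ideal.Quotient.mk (VI (E1 I u w)) (xx j)), ← Finset.prod_mul_distrib,
      ← Finset.prod_mul_distrib]
    refine Finset.prod_congr rfl fun c hc => ?_
    refine fmuS_mul (Finset.Icc c (u c)) m ?_
      (fun j => Ideal.Quotient.mk (VI (E1 I u w)) (inX (pcj u w c j)))
      (fun j => Ideal.Quotient.mk (VI (E1 I u w)) (xx j)) _ _ ?_
    · rw [← hm2 c hc]
      refine Finset.sum_congr ?_ fun _ _ => rfl
      ext j
      rw [Finset.mem_Icc, Finset.mem_filter]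
      constructor
      · intro hj
        exact ⟨Finset.mem_univ _, hj.1, hj.2⟩
      · intro hj
        exact ⟨hj.2.1, hj.2.2⟩
    · intro j hj
      rw [Finset.mem_Icc] at hj
      exact rel_S hs.ne.1 hs.pres hc hj.1 hj.2
  have h3 : (∏ c ∈ I, (Ideal.Quotient.mk (VI (E1 I u w))
      (inX (pmnr 1 (u * w) ((w⁻¹ c).val + 1) (w⁻¹ c).isLt))) ^ ν c) ≠ 0 := by
    rw [Finset.prod_ne_zero_iff]
    intro c hc
    exact pow_ne_zero _ (dS_ne_zero I u w ⟨(w⁻¹ c).val + 1, kc_lt hs hc⟩)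
  unfold IsF
  refine mul_left_cancel₀ h3 ?_
  linear_combination Xn I u w ν * h1 + dpS I u w H * h2

end CE
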