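import Pool.Agent.H43.CE.Defs

/-!
# CE, job I-Mnr : two minors of `b * permMat v * b'`

* `mnr_cell` : `mnr v k (b * permMat v * b') = mnr v k (b * permMat v) * ∏ b' p p` (`CMT.mnr_mul_upper`), and `mnr v k (b * permMat v) = det (b (v i) (v j))_{i,j<k}` (`CMT.mul_permMat_apply`) is block triangular for the injective
  function `i ↦ v i`, so equal to `∏ b (v p) (v p)` (as in `CMT.det_conj_ne`, A/A1.lean).
* `mnr_swap` : let `s = v ⟨k, hk⟩`.  The rows of `mnr (swap j s * v) (k+1)` are `v 0, ..., v (k-1), j`: `(swap j s * v) p = v p` for `p < k`: `v p ≠ s`, and `v p ≠ j`: if `j < s` then `hstar` with `i = j` gives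
  `k < v⁻¹ j`; if `j = s` the swap is trivial.  `(swap j s * v) k = j`.  By `CMT.mnr_mul_upper` the minor is `det D * ∏_{p ≤ k} b' p p`, `D i l = b (v i) (v l)` (`i < k`), `D k l = b j (v l)` (`i, l ≤ k`; `v k = s`).
  For `p < k`: `v p < c` or `s < v p` (if `c ≤ v p < s` then `hstar` gives `k < p`; `v p ≠ s`).
  Use the order function `i ↦ v i` for `i ≤ k` on rows and columns: `D i l = 0` if `v l < v i`: for `i < k`: `b` upper.  For `i = k`: `v l < v k = s`, `l < k`, so `v l < c ≤ j` and `b j (v l) = 0`.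
  So `det D = ∏` of the diagonal entries `= ∏_{p<k} b (v p) (v p) * b j s`.
-/

open MvPolynomial

noncomputable section

namespace CE

open CMT

variable {n : ℕ}

private theorem Mnr_det {m : ℕ} {D : Matrix (Fin m) (Fin m) ℂ} {f : Fin m → Fin n}
    (hf : Function.Injective f) (hD : ∀ i l, f l < f i → D i l = 0) :
    D.det = ∏ i, D i i := by
  have hbt : D.BlockTriangular f := fun i l h => hD i l h
  rw [hbt.det, Finset.prod_image (fun x _ y _ h => hf h)]
  refine Finset.prod_congr rfl fun i _ => ?_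
  have hs : Subsingleton {j : Fin m // f j = f i} :=
    ⟨fun x y => Subtype.ext (hf (x.2.trans y.2.symm))⟩
  rw [Matrix.det_eq_elem_of_subsingleton _ (⟨i, rfl⟩ : {j : Fin m // f j = f i})]
  rfl

theorem mnr_cell (v : Equiv.Perm (Fin n)) {b b' : Matrix (Fin n) (Fin n) ℂ} (hb : IsUpper b)
    (hb' : IsUpper b') (k : ℕ) (hk : k ≤ n) :
    mnr v k hk (b * permMat ℂ v * b') =
      (∏ p : Fin k, b (v (Fin.castLE hk p)) (v (Fin.castLE hk p))) *
        ∏ p : Fin k, b' (Fin.castLE hk p) (Fin.castLE hk p) := by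
  rw [mnr_mul_upper hb']
  congr 1
  have e : (Matrix.of fun i j : Fin k =>
      (b * permMat ℂ v) (v (Fin.castLE hk i)) (Fin.castLE hk j)) =
      Matrix.of fun i j : Fin k => b (v (Fin.castLE hk i)) (v (Fin.castLE hk j)) := by
    ext i j
    rw [Matrix.of_apply, Matrix.of_apply, mul_permMat_apply]
  unfold mnr
  rw [e]
  exact Mnr_det (D := Matrix.of fun i j : Fin k => b (v (Fin.castLE hk i)) (v (Fin.castLE hk j)))
    (f := fun i : Fin k => v (Fin.castLE hk i))
    (v.injective.comp (Fin.castLE_injective hk)) (fun i l h => hb.1 _ _ h)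

theorem mnr_swap (v : Equiv.Perm (Fin n)) {b b' : Matrix (Fin n) (Fin n) ℂ} (hb : IsUpper b)
    (hb' : IsUpper b') (k : ℕ) (hk : k < n) {c j : Fin n} (hcj : c ≤ j) (hjs : j ≤ v ⟨k, hk⟩)
    (hstar : ∀ i, c ≤ i → i < v ⟨k, hk⟩ → (⟨k, hk⟩ : Fin n) < v⁻¹ i) :
    mnr (Equiv.swap j (v ⟨k, hk⟩) * v) (k + 1) hk (b * permMat ℂ v * b') =
      (∏ p : Fin k, b (v (Fin.castLE hk.le p)) (v (Fin.castLE hk.le p))) *
        b j (v ⟨k, hk⟩) * ∏ p : Fin (k + 1), b' (Fin.castLE hk p) (Fin.castLE hk p) := by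
  obtain ⟨s, hs⟩ : ∃ s, s = v ⟨k, hk⟩ := ⟨_, rfl⟩
  rw [← hs] at hjs hstar ⊢
  rw [mnr_mul_upper hb']
  congr 1
  have hvs : ∀ p : Fin k, v (Fin.castLE hk.le p) ≠ s := by
    intro p h
    rw [hs] at h
    have h2 := congrArg Fin.val (v.injective h)
    have h3 : p.val = k := h2
    have := p.2
    omega
  have hvj : ∀ p : Fin k, v (Fin.castLE hk.le p) ≠ j := by
    intro p h
    rcases hjs.lt_or_eq with h1 | h1
    · have h2 := hstar j hcj h1
      have h4 : v⁻¹ (v (Fin.castLE hk.le p)) = Fin.castLE hk.le p := v.symm_apply_apply _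
      rw [← h, h4, Fin.lt_def] at h2
      have h3 : k < p.val := h2
      have := p.2
      omega
    · exact hvs p (h.trans h1)
  have hu : ∀ p : Fin k, (Equiv.swap j s * v) (Fin.castLE hk p.castSucc) =
      v (Fin.castLE hk.le p) := by
    intro p
    rw [Equiv.Perm.mul_apply]
    exact Equiv.swap_apply_of_ne_of_ne (hvj p) (hvs p)
  have hul : (Equiv.swap j s * v) (Fin.castLE hk (Fin.last k)) = j := by
    rw [Equiv.Perm.mul_apply]
    have h1 : v (Fin.castLE hk (Fin.last k)) = s := by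
      rw [hs]
      rfl
    rw [h1, Equiv.swap_apply_right]
  unfold mnr
  rw [Mnr_det (f := fun i : Fin (k + 1) => v (Fin.castLE hk i))
    (v.injective.comp (Fin.castLE_injective hk))]
  · rw [Fin.prod_univ_castSucc]
    congr 1
    · refine Finset.prod_congr rfl fun p _ => ?_
      rw [Matrix.of_apply, mul_permMat_apply, hu]
      rfl
    · rw [Matrix.of_apply, mul_permMat_apply, hul, hs]
      rfl
  · intro i l h
    rw [Matrix.of_apply, mul_permMat_apply]
    have h' : v (Fin.castLE hk l) < v (Fin.castLE hk i) := h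
    induction i using Fin.lastCases with
    | last =>
      rw [hul]
      have h1 : v (Fin.castLE hk (Fin.last k)) = s := by
        rw [hs]
        rfl
      rw [h1] at h'
      refine hb.1 _ _ (lt_of_lt_of_le ?_ hcj)
      by_contra hc
      rw [not_lt] at hc
      have h2 := hstar _ hc h'
      have h4 : v⁻¹ (v (Fin.castLE hk l)) = Fin.castLE hk l := v.symm_apply_apply _
      rw [h4, Fin.lt_def] at h2
      have h3 : k < l.val := h2
      have := l.2
      omega
    | cast p =>
      rw [hu]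
      exact hb.1 _ _ h'

end CE
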